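import Pool.Agent.H38R3.Ellentuck

/-!
# The Ramsey theorem for closed families of infinite sets of integers
-/

set_option autoImplicit false

namespace Pool.Agent.Y458.NP

open Pool.Agent.H38R3.Ell

theorem pre_bdd (e : ℕ ≃ ℤ) (R : ℕ) : ∃ N : ℕ, ∀ a, |e a| ≤ R → a < N := by
  have h1 : (e ⁻¹' (Set.Icc (-(R : ℤ)) R)).Finite := (Set.finite_Icc _ _).preimage e.injective.injOn
  obtain ⟨M, hM⟩ := h1.bddAbove
  exact ⟨M + 1, fun a ha => Nat.lt_succ_of_le (hM (by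
    simp only [Set.mem_preimage, Set.mem_Icc]
    exact abs_le.mp ha))⟩

theorem eo (e : ℕ ≃ ℤ) (Φ : ℕ → Set ℤ → Prop)
    (hΦ : ∀ (R : ℕ) (B B' : Set ℤ), (∀ y : ℤ, |y| ≤ R → (y ∈ B ↔ y ∈ B')) → Φ R B → Φ R B') :
    EO {z : Set ℕ | ¬ ∀ R, Φ R (e '' z)} := by
  intro z hz hzi
  simp only [Set.mem_ofPred_eq] at hz
  push Not at hz
  obtain ⟨R, hR⟩ := hz
  obtain ⟨N, hN⟩ := pre_bdd e R
  obtain ⟨u, hu1, hu2, hu3, -⟩ := exists_init hzi N 0
  refine ⟨u, hu1, fun w hw hE => hR ?_⟩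
  refine hΦ R (e '' w) (e '' z) (fun y hy => ?_) (hE R)
  constructor
  · rintro ⟨a, ha, rfl⟩
    refine ⟨a, ?_, rfl⟩
    rcases hw.2.2 a ha with h | h
    · exact hu3 a h
    · exact h.1
  · rintro ⟨a, ha, rfl⟩
    exact ⟨a, hw.2.1 a (hu2 a ha (hN a hy)), rfl⟩

/-- the Ramsey theorem for closed families of infinite sets of integers -/
theorem ram_core (Φ : ℕ → Set ℤ → Prop)
    (hΦ : ∀ (R : ℕ) (B B' : Set ℤ), (∀ y : ℤ, |y| ≤ R → (y ∈ B ↔ y ∈ B')) → Φ R B → Φ R B')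
    (hF : ∀ F : Set ℤ, F.Infinite → ∃ G ⊆ F, G.Infinite ∧ ∀ R, Φ R G)
    (F : Set ℤ) (hFi : F.Infinite) : ∃ G ⊆ F, G.Infinite ∧ ∀ I ⊆ G, ∀ R, Φ R I := by
  let e : ℕ ≃ ℤ := Equiv.intEquivNat.symm
  have hY : (e ⁻¹' F).Infinite := by
    intro hfin
    apply hFi
    have h1 : e '' (e ⁻¹' F) = F := Set.image_preimage_eq F e.surjective
    rw [← h1]
    exact hfin.image e
  obtain ⟨Y', h1, h2, h3⟩ := (eo e Φ hΦ).cr ∅ (e ⁻¹' F) hY
  have h4 : ∀ z ∈ Nb ∅ Y', ∀ R, Φ R (e '' z) := by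
    rcases h3 with h3 | h3
    · exfalso
      obtain ⟨G, hG1, hG2, hG3⟩ := hF (e '' Y') (h2.image e.injective.injOn)
      have h5 : e '' (e ⁻¹' G) = G := Set.image_preimage_eq G e.surjective
      have h6 : (e ⁻¹' G).Infinite := by
        intro hfin
        apply hG2
        rw [← h5]
        exact hfin.image e
      have h7 : e ⁻¹' G ⊆ Y' := by
        intro a ha
        obtain ⟨b, hb, hab⟩ := hG1 ha
        rwa [← e.injective hab]
      refine h3 (e ⁻¹' G) ⟨h6, by simp, fun n hn => Or.inr ⟨h7 hn, by simp⟩⟩ ?_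
      rw [h5]
      exact hG3
    · intro z hz
      by_contra h
      exact h3 z hz h
  refine ⟨e '' Y', ?_, h2.image e.injective.injOn, fun I hI R => ?_⟩
  · rintro _ ⟨a, ha, rfl⟩
    exact h1 ha
  · obtain ⟨N, hN⟩ := pre_bdd e R
    have h5 : (Y' \ Set.Iio N).Infinite := h2.sdiff (Set.finite_Iio N)
    have hI' : e ⁻¹' I ⊆ Y' := by
      intro a ha
      obtain ⟨b, hb, hab⟩ := hI ha
      rwa [← e.injective hab]
    have h6 := h4 (e ⁻¹' I ∪ (Y' \ Set.Iio N)) ⟨h5.mono Set.subset_union_right, by simp,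
      fun n hn => by
        right
        refine ⟨?_, by simp⟩
        rcases hn with h | h
        · exact hI' h
        · exact h.1⟩ R
    refine hΦ R _ _ (fun y hy => ?_) h6
    constructor
    · rintro ⟨a, ha, rfl⟩
      rcases ha with ha | ha
      · exact ha
      · exact absurd (hN a hy) ha.2
    · intro hyI
      exact ⟨e.symm y, Or.inl (by simpa using hyI), by simp⟩

end Pool.Agent.Y458.NP
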