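import Pool.Agent.Y520.NP.Stm
import Pool.Agent.Y458.NP.RamCore

/-!
# Project NP (helper520), task RAM: the Ramsey theorem for closed families of sets of integers
-/

set_option autoImplicit false

namespace Pool.Agent.Y458.NP

theorem ram : Pool.Agent.Y520.NP.S_RAM := fun Φ hΦ hF F hFi => ram_core Φ hΦ hF F hFi

end Pool.Agent.Y458.NP
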